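import Pool.Agent.Run7.h606.DB.Cls

/-!
# The Singer conjecture for the Davis manifolds of flag spheres in the class `LQ`

Let `L` be the flag complex of the finite graph `G`, a homology manifold with the homology of the `(n-1)`-sphere
(`HSph n G`). The Davis complex of the right-angled Coxeter group `W G` is a contractible real homology `n`-manifold
(a topological manifold if `L` is a combinatorial sphere), and its quotients by the torsion-free subgroups of finite
index of `W G` are closed aspherical `n`-manifolds.

We prove the statement of Singer's conjecture for them if `G` is in the class `LQ (n / 2 + 1)`. The new members come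
from unfolding. For a vertex `v` let `DG G v` be the graph of two copies of `G - v`, glued along the link of `v`; its
right-angled Coxeter group is the subgroup of index two of `W G` which is generated by the `u` and `v u v`.

* `G` is in the class if and only if `DG G v` is.
* Let `v`, `w` be different vertices which are not adjacent, and let `row k` be `2 ^ k` copies of `G - {v, w}` in a
  row, each glued to the next one along the link of `v` or `w` alternately. If all the graphs `row k` are in the class
  then so is `G`.
* Let `A` be a set of vertices of `G` each of which is not adjacent to at most one other element of `A`, so that it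
  generates an amenable group. If `G` is a full subgraph of a flag homology sphere mod `2` of dimension at most `2 d`
  and `G - A` is properly coloured by `d + 1` colours, or if the cliques of `G - A` have at most `d` elements, then `G`
  is in the class `LQ (d + 1)`; the elements of `A` may have links which are not in the class.

The class is closed under the usual operations as well.
-/

set_option autoImplicit false

namespace Pool.Agent.Results.MP_f80465_gt.AmenableReflections

open Pool.Agent.W907.SG Pool.Agent.Y132.SI Pool.Agent.Run7.h606.DB
open Pool.Agent.TH652.Above (HSph chi_sign)

/-- Let the flag complex of the finite graph `G` be a real homology manifold with the real homology of the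
`(n-1)`-sphere, and let `G` be in the class `LQ (n / 2 + 1)`. (1) The reduced `ℓ²`-homology of the Davis complex of
the right-angled Coxeter group `W G` vanishes in all degrees `i ≠ n / 2`. (2) If `n = 2 m` then
`(-1)^m χ(W G) ≥ 0`, where `χ(W G) = ∑_T (-1/2)^|T|` over the cliques `T`. (3) For each `ε > 0` there is a finite set
`E` of nontrivial elements of `W G` such that for every subgroup `H` of finite index of `W G` which contains no
conjugate of an element of `E`, and for all `i`, the `i`-th real Betti number of `H` differs by at most
`ε [W G : H]` from `0`, if `2 i ≠ n`, or from `(-1)^i χ(W G) [W G : H]`, if `2 i = n`. -/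
theorem result : ∀ (n : ℕ) (V : Type) [Fintype V] [LinearOrder V] (G : SimpleGraph V), HSph n G →
    LQ (n / 2 + 1) G →
    (∀ i : ℕ, 2 * i ≠ n → L2Van G i) ∧
    (∀ m : ℕ, n = 2 * m → 0 ≤ (-1 : ℚ) ^ m * chiW G) ∧
    ∀ ε : ℝ, 0 < ε → ∃ E : Finset (W G), (1 : W G) ∉ E ∧
      ∀ H : Subgroup (W G), H.FiniteIndex → (∀ g ∈ E, ∀ x : W G, x * g * x⁻¹ ∉ H) → ∀ i : ℕ,
          |(Module.finrank ℝ (HInv G H i) : ℝ) -
            (if 2 * i = n then (-1) ^ i * (chiW G : ℝ) else 0) * H.index| ≤ ε * H.index := by
  intro n V _ _ G hS hA
  have h1 : ∀ i : ℕ, 2 * i ≠ n → L2Van G i := fun i hi => singer_LQ hS hA i hi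
  refine ⟨h1, ?_, fun ε hε => growth_free G n h1 ε hε⟩
  rintro m rfl
  exact chi_sign G fun i hi => h1 i (by omega)

end Pool.Agent.Results.MP_f80465_gt.AmenableReflections
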