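import Pool.Agent.Run7.h31.Raise.Density

/-!
# The Singer conjecture and raising endomorphisms over finite coverings

Let `G` be an infinite group with a Poincaré duality complex `D` of dimension `n` over the complex
group algebra, for instance the fundamental group of a closed aspherical manifold `M`. For every
finite covering of `M`, that is, for every subgroup `H` of finite index, we consider chain
endomorphisms which lift the identity of the trivial module and strictly raise the heights of the
basis elements of degree `m` in a totally ordered set on which `H` acts by order-preserving maps,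
with some exceptions. The density of the exceptions is their number divided by the index. The `L²`-Betti
numbers in the degrees `m` and `n - m` are at most the density. Hence the defect of the Singer
conjecture, the sum of the `L²`-Betti numbers outside the middle degree, is at most the double of the
sum of the densities in the positive degrees less than `n / 2`. If these densities are zero then the
conjecture holds, and the middle `L²`-Betti number is `|χ|`.

Outline. The restriction of the complex to a subgroup of finite index is a Poincaré duality complex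
whose `L²`-Betti numbers are multiplied by the index; we apply the bound of
`MP_984acc_gt.OrderRaising` to it. The degrees `0` and `n` do not contribute because `G` is infinite.
-/

set_option autoImplicit false

universe u v

namespace Pool.Agent.Results.MP_f80465_gt.FiniteCoverings

open Pool.Agent.Results.MP_984acc_gt.OrderRaising Run7.h31.Raise

section proofs
variable {G : Type u} [Group G]

theorem half_sum (b : ℕ → ℝ) (n : ℕ) :
    ∑ i ∈ (Finset.range (n + 1)).filter (fun i => 2 * i ≠ n), b i
      = ∑ m ∈ (Finset.range (n + 1)).filter (fun m => 2 * m < n), (b m + b (n - m)) := by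
  rw [Finset.sum_add_distrib]
  have h1 : (Finset.range (n + 1)).filter (fun i => 2 * i ≠ n)
      = (Finset.range (n + 1)).filter (fun m => 2 * m < n)
        ∪ (Finset.range (n + 1)).filter (fun m => n < 2 * m) := by
    ext i
    simp only [Finset.mem_union, Finset.mem_filter, Finset.mem_range]
    omega
  have h2 : Disjoint ((Finset.range (n + 1)).filter (fun m => 2 * m < n))
      ((Finset.range (n + 1)).filter (fun m => n < 2 * m)) := by
    rw [Finset.disjoint_filter]
    intro i _ h
    omega
  rw [h1, Finset.sum_union h2]
  congr 1
  apply Finset.sum_nbij' (fun i => n - i) (fun i => n - i)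
  · intro i hi
    simp only [Finset.mem_filter, Finset.mem_range] at hi ⊢
    omega
  · intro i hi
    simp only [Finset.mem_filter, Finset.mem_range] at hi ⊢
    omega
  · intro i hi
    simp only [Finset.mem_filter, Finset.mem_range] at hi
    omega
  · intro i hi
    simp only [Finset.mem_filter, Finset.mem_range] at hi
    omega
  · intro i hi
    simp only [Finset.mem_filter, Finset.mem_range] at hi
    rw [Nat.sub_sub_self (by omega)]

theorem defect [Infinite G] {n : ℕ} {r : ℕ → ℕ} (D : Matrices G r) (hD : IsDualityComplex n D)
    (ε : ℕ → ℝ) (h : ∀ m, 1 ≤ m → 2 * m < n → betti D m ≤ ε m ∧ betti D (n - m) ≤ ε m) :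
    ∑ i ∈ (Finset.range (n + 1)).filter (fun i => 2 * i ≠ n), betti D i
      ≤ 2 * ∑ m ∈ (Finset.range n).filter (fun m => 1 ≤ m ∧ 2 * m < n), ε m := by
  rw [half_sum, Finset.mul_sum]
  have h1 : ∑ m ∈ (Finset.range (n + 1)).filter (fun m => 2 * m < n),
      (betti D m + betti D (n - m))
      = ∑ m ∈ (Finset.range n).filter (fun m => 1 ≤ m ∧ 2 * m < n),
        (betti D m + betti D (n - m)) := by
    symm
    apply Finset.sum_subset
    · intro m hm
      simp only [Finset.mem_filter, Finset.mem_range] at hm ⊢
      omega
    · intro m hm hm'
      simp only [Finset.mem_filter, Finset.mem_range] at hm hm'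
      have hm0 : m = 0 := by omega
      subst hm0
      rw [Nat.sub_zero, betti_zero_infinite D hD, betti_top_infinite D hD (by omega), add_zero]
  rw [h1]
  apply Finset.sum_le_sum
  intro m hm
  simp only [Finset.mem_filter, Finset.mem_range] at hm
  have := h m hm.2.1 hm.2.2
  linarith [this.1, this.2]

theorem middle {n k : ℕ} {r : ℕ → ℕ} (D : Matrices G r) (hD : IsDualityComplex n D)
    (hk : n = 2 * k) : |betti D k - (-1) ^ k * (eulerChar n r : ℝ)|
      ≤ ∑ i ∈ (Finset.range (n + 1)).filter (fun i => 2 * i ≠ n), betti D i := by
  have h1 : (-1 : ℝ) ^ k * (eulerChar n r : ℝ) - betti D k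
      = ∑ i ∈ (Finset.range (n + 1)).filter (fun i => 2 * i ≠ n),
        (-1 : ℝ) ^ k * ((-1) ^ i * betti D i) := by
    rw [euler_cast D hD, Finset.mul_sum,
      ← Finset.sum_filter_add_sum_filter_not (Finset.range (n + 1)) (fun i => 2 * i ≠ n)]
    have h2 : (Finset.range (n + 1)).filter (fun i => ¬ 2 * i ≠ n) = {k} := by
      ext i
      simp only [Finset.mem_filter, Finset.mem_range, Finset.mem_singleton]
      omega
    rw [h2, Finset.sum_singleton, ← mul_assoc, ← pow_add, ← two_mul, pow_mul]
    norm_num
  rw [abs_sub_comm, h1]
  refine (Finset.abs_sum_le_sum_abs _ _).trans (Finset.sum_le_sum fun i _ => ?_)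
  rw [abs_mul, abs_mul, abs_pow, abs_pow, abs_neg, abs_one, one_pow, one_pow, one_mul, one_mul,
    abs_of_nonneg (betti_nonneg D i)]

theorem length_zero {r : ℕ → ℕ} (D : Matrices G r) (n : ℕ) (hD : IsDualityComplex n D) (p : ℕ)
    (hp : n < p) : betti D p = 0 := by
  unfold betti
  apply Finset.sum_eq_zero
  intro j _
  have h3 := j.2
  have h4 := hD.length p hp
  omega

end proofs

/-- **The Singer conjecture and finite coverings.** Let `D` be the complex of a Poincaré duality
group structure of dimension `n` on the infinite group `G`.

1. If the subgroup `H` of finite index is raised in degree `m` with at most `c` exceptions, then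
`[G : H]` times the `L²`-Betti numbers of `G` in the degrees `m` and `n - m` (for `m < n`) are at
most `c`.
2. If `G` is raised in degree `m` with density at most `ε m` for all `m` with `1 ≤ m < n / 2`, then the
sum of the `L²`-Betti numbers outside degree `n / 2` is at most the double of the sum of these
`ε m`, and for `n = 2 k` this also bounds the difference of the `k`-th `L²`-Betti number and
`(-1) ^ k χ`.
3. If for each such `m` the group `G` is raised in degree `m` with density zero, or virtually has an
ordered set whose upper subcomplexes are exact in the degrees less than `m`, or virtually has a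
left-invariant total order whose monoid `{g | 1 ≤ g}` is of type `FP_m`, then all `L²`-Betti numbers
outside degree `n / 2` vanish, and for `n = 2 k` the `k`-th `L²`-Betti number is `(-1) ^ k χ`. -/
theorem result (G : Type u) [Group G] [Infinite G] (n : ℕ) (r : ℕ → ℕ) (D : Matrices G r)
    (hD : IsDualityComplex n D) :
    (∀ (H : Subgroup G) (m c : ℕ), H.FiniteIndex → IsRaised.{u, v} H m c →
      (H.index : ℝ) * betti D m ≤ c ∧ (m < n → (H.index : ℝ) * betti D (n - m) ≤ c)) ∧
    (∀ ε : ℕ → ℝ, (∀ m, 1 ≤ m → 2 * m < n → RaisedWithDensity.{u, v} G m (ε m)) →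
      (∑ i ∈ (Finset.range (n + 1)).filter (fun i => 2 * i ≠ n), betti D i
        ≤ 2 * ∑ m ∈ (Finset.range n).filter (fun m => 1 ≤ m ∧ 2 * m < n), ε m) ∧
      ∀ k, n = 2 * k → |betti D k - (-1) ^ k * (eulerChar n r : ℝ)|
        ≤ 2 * ∑ m ∈ (Finset.range n).filter (fun m => 1 ≤ m ∧ 2 * m < n), ε m) ∧
    ((∀ m, 1 ≤ m → 2 * m < n → RaisedWithDensity.{u, v} G m 0 ∨
      VirtuallyUpperExact.{u, v} G m ∨ VirtuallyOrderedFP.{u} G m) →
      (∀ i, 2 * i ≠ n → betti D i = 0) ∧
      ∀ k, n = 2 * k → betti D k = (-1) ^ k * (eulerChar n r : ℝ)) := by
  refine ⟨fun H m c hH h => index_bound D hD H hH m c h, ?_, ?_⟩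
  · intro ε h
    have h1 := defect D hD ε (fun m h1 h2 =>
      ⟨(density_bound D hD m (ε m) (h m h1 h2)).1,
        (density_bound D hD m (ε m) (h m h1 h2)).2 (by omega)⟩)
    exact ⟨h1, fun k hk => (middle D hD hk).trans h1⟩
  · intro h
    have h1 := defect D hD (fun _ => 0) (by
      intro m h1 h2
      have h3 : betti D m ≤ 0 ∧ (m < n → betti D (n - m) ≤ 0) := by
        rcases h m h1 h2 with h4 | h4 | h4
        · exact density_bound D hD m 0 h4
        · exact density_bound D hD m 0 (density_of_upper h4)
        · exact density_bound D hD m 0 (density_of_ordered h4)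
      exact ⟨h3.1, h3.2 (by omega)⟩)
    rw [Finset.sum_const_zero, mul_zero] at h1
    have h2 : ∑ i ∈ (Finset.range (n + 1)).filter (fun i => 2 * i ≠ n), betti D i = 0 :=
      le_antisymm h1 (Finset.sum_nonneg fun i _ => betti_nonneg D i)
    constructor
    · intro i hi
      rcases Nat.lt_or_ge n i with hp | hp
      · exact length_zero D n hD i hp
      · exact (Finset.sum_eq_zero_iff_of_nonneg fun i _ => betti_nonneg D i).1 h2 i
          (Finset.mem_filter.2 ⟨Finset.mem_range.2 (by omega), hi⟩)
    · intro k hk
      have h3 := middle D hD hk
      rw [h2] at h3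
      exact sub_eq_zero.1 (abs_eq_zero.1 (le_antisymm h3 (abs_nonneg _)))

end Pool.Agent.Results.MP_f80465_gt.FiniteCoverings
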