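import Pool.Agent.Run7.h604.HK.Laws

/-!
# The Singer conjecture and the share of the middle degrees

A class of closed aspherical manifolds which is closed under products and contains the surfaces is
considered, or more generally a class of cocompact complexes with finite stabilizers
(`Cplx`, the cellular chain complexes of the universal covers). The Singer conjecture for the class is
equivalent to a much weaker statement: in infinitely many dimensions `2 m` the `L²`-Betti numbers of
the members with huge total `L²`-Betti number have a share of at least `ρ` in the degrees at distance
at most `f` from the middle, where `ρ √m / (f + 1)` is unbounded. So it suffices to know that the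
middle Betti number is at least `m ^ (- 1 / 2 + δ)` times the total one.

Outline. The Künneth formula for the reduced `L²`-homology is proved for these complexes: a
square-summable chain of the product is harmonic if and only if all its slices are (the mixed terms
of the Laplacian cancel), so the projection of a product of cells is the product of the projections.
By the theorem of Stirling type `conc` the powers of a complex with Betti numbers in several degrees
have a share of at most `C / √r` in each single degree. Factors which are surfaces of large genus
adjust the dimension and make the total Betti number large.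
-/

set_option autoImplicit false

namespace Pool.Agent.Results.MP_f80465_gt.MiddleShareLaw

open Pool.Agent.Run7.h604.HK

theorem result (𝒞 : Cplx → Prop) (hp : ∀ A B, 𝒞 A → 𝒞 B → 𝒞 (A.prod B))
    (hS : ∀ t : ℝ, ∃ S, 𝒞 S ∧ S.dim = 2 ∧ t ≤ S.betti 1 ∧ S.betti 0 = 0 ∧ S.betti 2 = 0) :
    (∀ A, 𝒞 A → ∀ k, 2 * k ≠ A.dim → A.betti k = 0) ↔
      ∀ K : ℝ, ∃ (m f : ℕ) (ρ β : ℝ), K * (f + 1) ≤ ρ * √m ∧
        ∀ A, 𝒞 A → A.dim = 2 * m → β ≤ A.total →
          ρ * A.total ≤ ∑ k ∈ Finset.Icc (m - f) (m + f), A.betti k :=
  Cplx.middle_share_iff 𝒞 hp hS

end Pool.Agent.Results.MP_f80465_gt.MiddleShareLaw
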