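import Pool.Agent.Run7.h709.AC.Chi
import Pool.Agent.Run7.h709.AC.Emb

/-!
# The Singer conjecture and the first barycentric subdivision: Poincaré duality subgroups of arbitrary index

Let `W G` be the right-angled Coxeter group of the finite graph `G`, and let `Γ` be the kernel of `W G → (ℤ/2)^V`, a
torsion free subgroup of finite index. Let `X` be any simplicial complex of dimension at most `5` (no embedding, no
flagness, no manifold is assumed), and let `G` be the graph of its barycentric subdivision. We prove the Singer
conjecture for all the Poincaré duality subgroups `K` of `Γ` (of type FL, orientable or not, of finite or infinite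
index) of dimension `q ≥ 2 m`, where `dim X ≤ 2 m - 1`, `m ≤ 3`: if `2 k ≠ q` then `b_k(K) = 0`; if `q = 2 e` then
`(-1)^e χ(K) ≥ 0`, and if `χ(K) = 0` then all the `L²`-Betti numbers vanish. The same holds for `q ≥ 2 d` if `X` is a
complex of dimension at most `2 d` in the sphere of dimension `2 d`, `d ≤ 2`; in this case all the `L²`-Betti numbers
vanish if `q > 2 d`, and the result includes the subgroups of codimension one. So the Singer conjecture holds for each
closed aspherical manifold of dimension `q` (as above) whose fundamental group is isomorphic to a subgroup of `Γ`.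
(If `X` is a triangulated sphere of dimension `q - 1` then `K` is of finite index in `Γ`, and this case is due to Davis
and Okun. In general `Γ` is not a duality group and `K` is of infinite index.)

More generally, the vertices of `X` can be coloured, and only the monochromatic simplices are subdivided (`cs X col`):
the simplices of one special colour can have up to six vertices, those of the other colours up to two vertices. In
this form the theorem gives examples in all dimensions.
-/

set_option autoImplicit false

namespace Pool.Agent.Results.MP_f80465_gt.SingerForCoversOfSubdivisions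

open Pool.Agent.W907.SG Pool.Agent.W461.SGN Pool.Agent.N496.CV Pool.Agent.R782.Bal Run7.h709.AC

/-- `X` is a simplicial complex, and each simplex of `X` all of whose vertices have the colour `c` has at most
`2 a c` vertices. -/
def Bounded {N n : ℕ} (X : Finset (Finset (Fin N))) (col : Fin N → Fin n) (a : Fin n → ℕ) : Prop :=
  (∀ σ ∈ X, ∀ τ : Finset (Fin N), τ ⊆ σ → τ ∈ X) ∧
    ∀ σ ∈ X, ∀ c, (∀ v ∈ σ, col v = c) → σ.card ≤ 2 * a c

/-- If `K` is a Poincaré duality group of dimension `q ≥ 2 b` (of type FL) then: the `L²`-Betti numbers of `K` outside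
of the degree `q / 2` vanish; all of them vanish if `q > 2 b`; and if `q = 2 e` then `(-1)^e χ(K) ≥ 0`, and if
`χ(K) = 0` then all the `L²`-Betti numbers vanish. The Euler characteristic `χ(K)` is computed by any resolution `C` of
`ℤ` by finitely generated free modules which is zero above some degree `s`. -/
def SingerAbove (K : Type) [Group K] (b : ℕ) : Prop :=
  ∀ q : ℕ, 2 * b ≤ q → Nonempty (PD K q) →
    (∀ k : ℕ, 2 * k ≠ q → HasL2Betti K k 0) ∧ (2 * b < q → ∀ k : ℕ, HasL2Betti K k 0) ∧
    ∀ e : ℕ, q = 2 * e → ∀ (C : V7N.FreeRes K) (s : ℕ), (∀ i, s < i → C.r i = 0) →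
      0 ≤ (-1 : ℤ) ^ e * ∑ i ∈ Finset.range (s + 1), (-1 : ℤ) ^ i * (C.r i : ℤ) ∧
      (∑ i ∈ Finset.range (s + 1), (-1 : ℤ) ^ i * (C.r i : ℤ) = 0 → ∀ k : ℕ, HasL2Betti K k 0)

theorem singer_above {V : Type} [Fintype V] [LinearOrder V] (G : SimpleGraph V) {b : ℕ}
    (hAC : AC G (b + 1) Set.univ) (K : Subgroup (W G)) (hK : K ≤ (th G).ker) : SingerAbove K b := by
  rintro q hq ⟨P⟩
  have hmid : ∀ k : ℕ, 2 * k ≠ q → VN831.l2Betti K k = 0 := fun k hk => pd_mid G hAC K hK P (by omega) k hk
  have hval : ∀ k : ℕ, VN831.l2Betti K k = 0 → HasL2Betti K k 0 := by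
    intro k h
    have h6 := hasL2Betti K k
    rw [h] at h6
    exact h6
  refine ⟨fun k hk => hval k (hmid k hk), fun h k => hval k (pd_all G hAC K hK P (by omega) k), ?_⟩
  rintro e rfl C s hs
  refine ⟨euler_sign C s e hs fun k hk => hmid k (by omega), fun h k => hval k ?_⟩
  exact (chiR_iff C s e hs fun k hk => hmid k (by omega)).2 h k

/-- Let `X` be a finite simplicial complex with coloured vertices such that the simplices with all the vertices of the
colour `c` have at most `2 a c` vertices, let `G = cs X col` be the graph of its colourwise barycentric subdivision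
(the barycentric subdivision if there is only one colour), and let `Γ` be the kernel of `W G → (ℤ/2)^V`. (1) If
`a c₀ ≤ 3` for one colour `c₀` and `a c ≤ 1` for the other colours `c`, then every subgroup `K ≤ Γ` which is a Poincaré
duality group of dimension `q ≥ 2 ∑ a c` satisfies the Singer conjecture (`SingerAbove`). (2) If `d ≤ 2`,
`∑ a c ≤ d + 1`, and `X` is of dimension at most `2 d` and embedded in the sphere of dimension `2 d`, then every
subgroup `K ≤ Γ` which is a Poincaré duality group of dimension `q ≥ 2 d` satisfies the Singer conjecture, and all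
its `L²`-Betti numbers vanish if `q > 2 d`. -/
theorem result :
    (∀ (N n : ℕ) (X : Finset (Finset (Fin N))) (col : Fin N → Fin n) (a : Fin n → ℕ) (c₀ : Fin n),
      Bounded X col a → a c₀ ≤ 3 → (∀ c, c ≠ c₀ → a c ≤ 1) →
      ∀ [Fintype (MF X col)] [LinearOrder (MF X col)], ∀ K : Subgroup (W (cs X col)), K ≤ (th (cs X col)).ker →
        SingerAbove K (∑ c, a c)) ∧
    (∀ (N n d : ℕ) (X : Finset (Finset (Fin N))) (col : Fin N → Fin n) (a : Fin n → ℕ),
      Bounded X col a → d ≤ 2 → ∑ c, a c ≤ d + 1 → (∀ σ ∈ X, σ.card ≤ 2 * d + 1) → EmbX d X col →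
      ∀ [Fintype (MF X col)] [LinearOrder (MF X col)], ∀ K : Subgroup (W (cs X col)), K ≤ (th (cs X col)).ker →
        SingerAbove K d) := by
  refine ⟨?_, ?_⟩
  · intro N n X col a c₀ hX h3 h1 _ _ K hK
    exact singer_above _ (ac_bary hX.1 a c₀ h3 h1 hX.2) K hK
  · intro N n d X col a hX hd hsum hdim hE _ _ K hK
    exact singer_above _ (ac_bary_emb hX.1 a d hd hsum hX.2 hdim (hE.emb hX.1).obs) K hK

end Pool.Agent.Results.MP_f80465_gt.SingerForCoversOfSubdivisions
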